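import Pool.Agent.Helper36.LM.Defs

/-!
# LM-D: a line of type zero

If a line meets the range of the form only in zero, then adding its bivector raises the rank.
-/

set_option autoImplicit false

namespace Pool.Agent.Helper36.LM

open Module Finset

variable {K : Type} [Field K] {E : Type} [AddCommGroup E] [Module K E] [FiniteDimensional K E]
  {ι : Type} [Fintype ι]

namespace Conf

omit [FiniteDimensional K E] [Fintype ι] in
private theorem swapD (C : Conf K E ι) (ψ φ : E) : C.T ψ φ = - C.T φ ψ := by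
  have h := C.alt (ψ + φ)
  rw [map_add, map_add, LinearMap.add_apply, LinearMap.add_apply, C.alt, C.alt] at h
  linear_combination h

omit [Fintype ι] in
private theorem mem_R_of (C : Conf K E ι) (f : Dual K E) (h : ∀ φ, C.T φ = 0 → f φ = 0) :
    f ∈ C.R := by
  have h1 : f ∈ (LinearMap.ker C.T).dualAnnihilator := by
    rw [Submodule.mem_dualAnnihilator]
    intro w hw
    exact h w (LinearMap.mem_ker.1 hw)
  rw [← LinearMap.range_dualMap_eq_dualAnnihilator_ker] at h1
  obtain ⟨g, hg⟩ := h1
  obtain ⟨φ, hφ⟩ := (Module.evalEquiv K E).surjective g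
  refine ⟨-φ, ?_⟩
  ext ψ
  rw [← hg, ← hφ, map_neg, LinearMap.neg_apply, LinearMap.dualMap_apply, swapD C φ ψ, neg_neg]
  rfl

omit [FiniteDimensional K E] in
private theorem pot_lt_of_rnkD {C C' : Conf K E ι} (h : C.rnk < C'.rnk) : C.pot < C'.pot := by
  classical
  have h1 : C.one.card ≤ Fintype.card ι := Finset.card_le_univ _
  have h2 : C.num ≤ Fintype.card ι ^ 2 := by
    unfold num
    refine (Finset.card_filter_le _ _).trans ?_
    rw [Finset.card_product, sq]
    exact Nat.mul_le_mul h1 h1
  unfold pot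
  set m := Fintype.card ι
  have h3 : C.rnk * (m + 1) + C.one.card + 1 ≤ C'.rnk * (m + 1) + C'.one.card := by nlinarith
  nlinarith

theorem rnk_of_bot [DecidableEq ι] {C : Conf K E ι} {i : ι} (h : C.line i ⊓ C.R = ⊥) :
    C.rnk < (C.move (Pi.single i 1)).rnk := by
  have hT : ∀ φ, (C.move (Pi.single i 1)).T φ = C.T φ + (C.a i φ • C.b i - C.b i φ • C.a i) := by
    intro φ
    change (C.T + ∑ k, (Pi.single i (1 : K) : ι → K) k • wed (C.a k) (C.b k)) φ = _
    rw [LinearMap.add_apply, LinearMap.sum_apply, Finset.sum_eq_single i]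
    · rw [Pi.single_eq_same, one_smul]
      simp [wed]
    · intro k _ hk
      rw [Pi.single_eq_of_ne hk, zero_smul, LinearMap.zero_apply]
    · intro hi
      exact absurd (Finset.mem_univ i) hi
  -- the kernel shrinks
  have hker : ∀ φ, (C.move (Pi.single i 1)).T φ = 0 → C.T φ = 0 ∧ C.a i φ = 0 ∧ C.b i φ = 0 := by
    intro φ hφ
    rw [hT] at hφ
    have hm : C.a i φ • C.b i - C.b i φ • C.a i ∈ C.line i ⊓ C.R := by
      refine ⟨?_, ?_⟩
      · refine Submodule.sub_mem _ (Submodule.smul_mem _ _ ?_) (Submodule.smul_mem _ _ ?_)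
        · exact Submodule.subset_span (by simp)
        · exact Submodule.subset_span (by simp)
      · refine ⟨-φ, ?_⟩
        rw [map_neg]
        exact (eq_neg_of_add_eq_zero_right hφ).symm
    rw [h, Submodule.mem_bot] at hm
    have h1 := C.ind i (-(C.b i φ)) (C.a i φ) (by rw [← hm]; module)
    rw [hm, add_zero] at hφ
    exact ⟨hφ, h1.2, neg_eq_zero.1 h1.1⟩
  have hne : C.a i ≠ 0 := by
    intro h0
    have h1 := (C.ind i 1 0 (by rw [h0, smul_zero, zero_smul, add_zero])).1
    exact one_ne_zero h1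
  have hnot : C.a i ∉ C.R := by
    intro hR
    have hm : C.a i ∈ C.line i ⊓ C.R := ⟨Submodule.subset_span (by simp), hR⟩
    rw [h, Submodule.mem_bot] at hm
    exact hne hm
  have hlt : LinearMap.ker (C.move (Pi.single i 1)).T < LinearMap.ker C.T := by
    refine lt_of_le_of_ne ?_ ?_
    · intro φ hφ
      exact LinearMap.mem_ker.2 (hker φ (LinearMap.mem_ker.1 hφ)).1
    · intro heq
      apply hnot
      refine mem_R_of C _ fun φ hφ => ?_
      have h1 : φ ∈ LinearMap.ker C.T := LinearMap.mem_ker.2 hφ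
      rw [← heq] at h1
      exact (hker φ (LinearMap.mem_ker.1 h1)).2.1
  have hfr := Submodule.finrank_lt_finrank_of_lt hlt
  have h1 := LinearMap.finrank_range_add_finrank_ker C.T
  have h2 := LinearMap.finrank_range_add_finrank_ker (C.move (Pi.single i 1)).T
  change finrank K (LinearMap.range C.T) < finrank K (LinearMap.range (C.move (Pi.single i 1)).T)
  omega

theorem imp_of_bot {C : Conf K E ι} {i : ι} (h : C.line i ⊓ C.R = ⊥) {p : ℕ} {C₀ : Conf K E ι}
    (h0 : C₀.rnk = C.rnk) (hp : p ≤ C₀.pot) : C.Imp p 1 := by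
  classical
  refine ⟨Pi.single i 1, ?_, ?_⟩
  · have h1 : (Finset.univ.filter (fun k => (Pi.single i 1 : ι → K) k ≠ 0)) ⊆ {i} := by
      intro k hk
      rw [Finset.mem_filter] at hk
      rw [Finset.mem_singleton]
      by_contra hne
      exact hk.2 (Pi.single_eq_of_ne hne 1)
    refine (Finset.card_le_card ?_).trans (Finset.card_singleton i).le
    convert h1
  · refine lt_of_le_of_lt hp (pot_lt_of_rnkD ?_)
    rw [h0]
    exact rnk_of_bot h

end Conf

end Pool.Agent.Helper36.LM
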